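import Pool.Agent.H447R3.AoDefs
import Pool.Agent.H447R3.DegDefs
import Pool.Agent.W537.OneCycleDefs

/-!
# The Lefschetz standard conjecture in the degrees up to `i`: definitions
-/

set_option autoImplicit false

open CategoryTheory AlgebraicGeometry

universe u v

namespace Pool.Agent.Helper9K9.LF

section Alg

variable {K : Type*} [Field K] {V : Type*} [AddCommGroup V] [Module K V]

/-- The dimension of a subspace. -/
noncomputable def dimOf (S : Submodule K V) : ℕ := Module.finrank K S

/-- The linear map `T` is injective on the subspace `S`. -/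
def InjectiveOn (S : Submodule K V) (T : V →ₗ[K] V) : Prop := ∀ x ∈ S, T x = 0 → x = 0

/-- Some member of the subspace `S` has the property `P`. -/
def SomeIn (S : Submodule K V) (P : V → Prop) : Prop := ∃ x ∈ S, P x

end Alg

open Pool.Agent.H914 Pool.Agent.H447 Pool.Agent.W537 VarClass Obj WeilCohomology

variable {k : Type u} [Field k] {𝒱 : VarClass k} {ops : CycleOps 𝒱}

/-- The class of the cycle `z` on `Y`. -/
noncomputable def cls (W : WeilCohomology.{u, v} ops) (Y : 𝒱.Obj) (z : Y.Cycles) : W.H Y :=
  W.cl Y z

/-- The Lefschetz standard conjecture for `X` and the divisor `D` in the degrees up to `i`: for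
`j ≤ i` the inverse of `D ^ (n - j) : H^j(X) → H^(2n - j)(X)`, where `n = dim X`, is induced by a
cycle of codimension `j` on `X × X`. -/
def LefschetzUpTo (W : WeilCohomology.{u, v} ops) (X : 𝒱.Obj) (D : X.Cycles) (i : ℕ) : Prop :=
  ∀ j ≤ i, ∃ z, InvertsLefschetz W X D j z

/-- For `j ≤ i` some combination of classes of cycles of codimension `j` on `X × X`, with
coefficients in the coefficient field of the cohomology, induces an injective operator on
`H^(2n - j)(X)`, where `n = dim X`. -/
def InjectiveUpTo (W : WeilCohomology.{u, v} ops) (X : 𝒱.Obj) (i : ℕ) : Prop :=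
  ∀ j ≤ i, SomeIn (spanCycles W (X.prod X) j)
    (fun γ => InjectiveOn (W.gr X (2 * X.dim - j)) (W.corr γ))

/-- The class of `Δ_*(D ^ (n - i))` on `X × X`, where `Δ` is the diagonal map and `n = dim X`. -/
noncomputable def diagPow (W : WeilCohomology.{u, v} ops) (X : 𝒱.Obj) (D : X.Cycles) (i : ℕ) :
    W.H (X.prod X) :=
  cls W (X.prod X) (ops.push (diag X) (divPow ops D (X.dim - i) X.V.fundCycle))

/-- The class of `Δ_*(D ^ (n - i))` is the product of `(D × X - X × D) ^ (2 (n - i))` with the class
of a cycle of codimension `i`. -/
def DiagPowDivisible (W : WeilCohomology.{u, v} ops) (X : 𝒱.Obj) (D : X.Cycles) (i : ℕ) : Prop :=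
  ∃ z, (X.prod X).IsCyc i z ∧
    cls W (X.prod X) (divPow ops (boxDiff ops D) (2 * (X.dim - i)) z) = diagPow W X D i

/-- The class of `Δ_*(D ^ (n - i))` is the product of `(D × X - X × D) ^ (2 (n - i))` with a
combination of classes of cycles of codimension `i` with coefficients in the coefficient field of
the cohomology. -/
def DiagPowDivisibleSpan (W : WeilCohomology.{u, v} ops) (X : 𝒱.Obj) (D : X.Cycles) (i : ℕ) :
    Prop :=
  SomeIn (spanCycles W (X.prod X) i)
    (fun γ => cls W (X.prod X) (boxDiff ops D) ^ (2 * (X.dim - i)) * γ = diagPow W X D i)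

/-- The rank of the group of cycles of codimension `q` modulo homological equivalence: the
dimension of the space spanned by their classes over the coefficient field of the cohomology. -/
noncomputable def cycleRank (W : WeilCohomology.{u, v} ops) (Y : 𝒱.Obj) (q : ℕ) : ℕ :=
  dimOf (spanCycles W Y q)

/-- The class of the cycle `z` on `X × X` does not change if the factors are interchanged. -/
def IsSymm (W : WeilCohomology.{u, v} ops) (X : 𝒱.Obj) (z : (X.prod X).Cycles) : Prop :=
  cls W (X.prod X) (ops.pull (Obj.lift (snd X X) (fst X X)) z) = cls W (X.prod X) z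

/-- The space spanned by the classes of the symmetric cycles of codimension `q` on `X × X`. -/
noncomputable def symmSpan (W : WeilCohomology.{u, v} ops) (X : 𝒱.Obj) (q : ℕ) :
    Submodule W.K (W.H (X.prod X)) :=
  Submodule.span W.K {c | ∃ z, (X.prod X).IsCyc q z ∧ IsSymm W X z ∧ cls W (X.prod X) z = c}

/-- The rank of the group of symmetric cycles of codimension `q` on `X × X` modulo homological
equivalence: the dimension of the space spanned by their classes. -/
noncomputable def symmRank (W : WeilCohomology.{u, v} ops) (X : 𝒱.Obj) (q : ℕ) : ℕ :=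
  dimOf (symmSpan W X q)

/-- Homological and numerical equivalence coincide for the symmetric cycles of codimension `q` on
`X × X`. -/
def SymmHomEqNumIn (W : WeilCohomology.{u, v} ops) (X : 𝒱.Obj) (q : ℕ) : Prop :=
  ∀ z, (X.prod X).IsCyc q z → IsSymm W X z →
    (∀ w, (X.prod X).IsCyc ((X.prod X).dim - q) w →
      (X.prod X).V.degCycle (ops.mul z w) = 0) → cls W (X.prod X) z = 0

/-- The conjecture A for the divisor `E` on `X × X` and the symmetric cycles in the single
codimension `i`: the class of every symmetric cycle of codimension `2n - i`, where `n = dim X`, is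
the product of `E ^ (2n - 2i)` with the class of a symmetric cycle of codimension `i`. -/
def SymmLefschetzAIn (W : WeilCohomology.{u, v} ops) (X : 𝒱.Obj) (E : (X.prod X).Cycles) (i : ℕ) :
    Prop :=
  ∀ z, (X.prod X).IsCyc (2 * X.dim - i) z → IsSymm W X z →
    ∃ z', (X.prod X).IsCyc i z' ∧ IsSymm W X z' ∧
      cls W (X.prod X) (divPow ops E (2 * X.dim - 2 * i) z') = cls W (X.prod X) z

end Pool.Agent.Helper9K9.LF
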