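import Pool.Agent.Helper9K9.LF.Theta

/-!
# The power `f ^ r` of the lowering operator from the inverses of the powers of `L`
-/

set_option autoImplicit false

open Finset Polynomial

namespace Pool.Agent.Helper9K9.LF

open Pool.Agent.H914

variable {K : Type*} [Field K] [CharZero K] {V : Type*} [AddCommGroup V] [Module K V]
  {gr : ℕ → Submodule K V} {n : ℕ} {L f : Module.End K V} {R : ℤ → Module.End K V → Prop}

/-- The projectors to the outer degrees. -/
lemma proj_mem_trunc (hR : OpAlg gr R) (h : DirectSum.IsInternal gr)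
    (hbd : ∀ i, 2 * n + 1 ≤ i → gr i = ⊥)
    (hL : R 1 L) (hHL : HardLef gr n L) {r : ℕ} (θ : ℕ → Module.End K V)
    (hθR : ∀ c, r ≤ c → c ≤ n → R (-c) (θ c))
    (hθ : ∀ c, r ≤ c → c ≤ n → ∀ a ∈ gr (n - c), θ c ((L ^ c) a) = a) :
    ∀ m, m + r ≤ n → ∀ c, c + m = n → R 0 (proj h (n - c)) ∧ R 0 (proj h (n + c)) := by
  have hLh : IsHom gr 2 L := by simpa using hR.hom hL
  intro m
  induction m using Nat.strong_induction_on with
  | _ m ih =>
    intro hm c hc
    -- the truncated inverse
    set A : Module.End K V := 1 - ∑ l ∈ range m, proj h l with hA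
    set B : Module.End K V := 1 - ∑ l ∈ range m, proj h (2 * n - l) with hB
    have hAR : R 0 A := by
      apply hR.sub hR.one
      apply hR.sum
      intro l hl
      rw [Finset.mem_range] at hl
      have := (ih l hl (by omega) (n - l) (by omega)).1
      rwa [show n - (n - l) = l by omega] at this
    have hBR : R 0 B := by
      apply hR.sub hR.one
      apply hR.sum
      intro l hl
      rw [Finset.mem_range] at hl
      have := (ih l hl (by omega) (n - l) (by omega)).2
      rwa [show n + (n - l) = 2 * n - l by omega] at this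
    set T := A * θ c * B with hT
    have hθc := hθR c (by omega) (by omega)
    have hTR : R (-c) T := hR.cast (hR.mul (hR.mul hAR hθc) hBR) (by ring)
    have hAlow : ∀ l < m, ∀ a ∈ gr l, A a = 0 := by
      intro l hl a ha
      rw [hA, LinearMap.sub_apply, Module.End.one_apply, LinearMap.sum_apply,
        Finset.sum_eq_single l, proj_same h ha, sub_self]
      · intro l' _ hl'; exact proj_ne h ha (Ne.symm hl')
      · intro h'; exact absurd (Finset.mem_range.2 hl) h'
    have hAhigh : ∀ l, m ≤ l → ∀ a ∈ gr l, A a = a := by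
      intro l hl a ha
      rw [hA, LinearMap.sub_apply, Module.End.one_apply, LinearMap.sum_apply,
        Finset.sum_eq_zero, sub_zero]
      intro l' hl'
      rw [Finset.mem_range] at hl'
      exact proj_ne h ha (by omega)
    have hBhigh : ∀ l, 2 * n - m < l → ∀ a ∈ gr l, B a = 0 := by
      intro l hl a ha
      by_cases hl2 : 2 * n < l
      · rw [hbd l (by omega)] at ha
        rw [(Submodule.mem_bot _).1 ha, map_zero]
      · rw [hB, LinearMap.sub_apply, Module.End.one_apply, LinearMap.sum_apply,
          Finset.sum_eq_single (2 * n - l), show 2 * n - (2 * n - l) = l by omega,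
          proj_same h ha, sub_self]
        · intro l' hl' hne
          rw [Finset.mem_range] at hl'
          exact proj_ne h ha (by omega)
        · intro h'; exact absurd (Finset.mem_range.2 (by omega)) h'
    have hBlow : ∀ l ≤ 2 * n - m, ∀ a ∈ gr l, B a = a := by
      intro l hl a ha
      rw [hB, LinearMap.sub_apply, Module.End.one_apply, LinearMap.sum_apply,
        Finset.sum_eq_zero, sub_zero]
      intro l' hl'
      rw [Finset.mem_range] at hl'
      exact proj_ne h ha (by omega)
    -- `T` is supported in degree `n + c`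
    have hTsupp : ∀ l, l ≠ n + c → ∀ a ∈ gr l, T a = 0 := by
      intro l hl a ha
      rw [hT, Module.End.mul_apply, Module.End.mul_apply]
      by_cases h1 : 2 * n - m < l
      · rw [hBhigh l h1 a ha, map_zero, map_zero]
      · rw [hBlow l (by omega) a ha]
        have h2 := hR.hom hθc l a (by rw [grZ_natCast]; exact ha)
        by_cases h3 : 2 * c ≤ l
        · rw [show (l : ℤ) + 2 * -(c : ℤ) = ((l - 2 * c : ℕ) : ℤ) by omega, grZ_natCast] at h2
          exact hAlow _ (by omega) _ h2
        · rw [grZ_of_neg (by omega)] at h2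
          rw [(Submodule.mem_bot _).1 h2, map_zero]
    have hTinv : ∀ a ∈ gr (n - c), T ((L ^ c) a) = a := by
      intro a ha
      have h1 := pow_L_mem hLh ha c
      rw [hT, Module.End.mul_apply, Module.End.mul_apply, hBlow _ (by omega) _ h1,
        hθ c (by omega) (by omega) a ha, hAhigh _ (by omega) a ha]
    constructor
    · have e : proj h (n - c) = T * L ^ c := by
        apply gr_ext h
        intro l a ha
        rw [Module.End.mul_apply]
        by_cases hl : l = n - c
        · subst hl
          rw [proj_same h ha, hTinv a ha]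
        · rw [proj_ne h ha hl, hTsupp (l + 2 * c) (by omega) _ (pow_L_mem hLh ha c)]
      rw [e]
      exact hR.cast (hR.mul hTR (hR.pow hL c)) (by ring)
    · have e : proj h (n + c) = L ^ c * T := by
        apply gr_ext h
        intro l a ha
        rw [Module.End.mul_apply]
        by_cases hl : l = n + c
        · subst hl
          rw [proj_same h ha]
          obtain ⟨b, hb, hb'⟩ := (hHL (n - c) (by omega)).2 a
            (by rw [show 2 * n - (n - c) = n + c by omega]; exact ha)
          rw [show n - (n - c) = c by omega] at hb'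
          rw [← hb', hTinv b hb]
        · rw [proj_ne h ha hl, hTsupp l hl a ha, map_zero]
      rw [e]
      exact hR.cast (hR.mul (hR.pow hL c) hTR) (by ring)

/-- the operator with the eigenvalue `g i` on `L ^ i P`, where `P` is the primitive part of degree
`n - t - 2i` -/
noncomputable def dg (n : ℕ) (L : Module.End K V) (θ : ℕ → Module.End K V) (t : ℕ) (g : ℕ → ℚ) :
    Module.End K V :=
  ∑ i ∈ range ((n - t) / 2 + 1), ((g i - (if i = 0 then 0 else g (i - 1)) : ℚ) : K) •
    (L ^ i * θ (t + 2 * i) * L ^ (t + i))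

lemma dg_mem (hR : OpAlg gr R) (hL : R 1 L) {r : ℕ} {θ : ℕ → Module.End K V}
    (hθR : ∀ c, r ≤ c → c ≤ n → R (-c) (θ c)) {t : ℕ} (ht : r ≤ t) (htn : t ≤ n) (g : ℕ → ℚ) :
    R 0 (dg n L θ t g) := by
  apply hR.sum
  intro i hi
  rw [Finset.mem_range] at hi
  apply hR.smul
  exact hR.cast (hR.mul (hR.mul (hR.pow hL i) (hθR (t + 2 * i) (by omega) (by omega)))
    (hR.pow hL (t + i))) (by push_cast; ring)

lemma sum_tele (g : ℕ → ℚ) (m : ℕ) :
    ∑ i ∈ range (m + 1), (g i - (if i = 0 then 0 else g (i - 1))) = g m := by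
  induction m with
  | zero => simp
  | succ m ih =>
    rw [Finset.sum_range_succ, ih, if_neg (by omega), show m + 1 - 1 = m by omega]
    ring

lemma dg_apply (hLh : IsHom gr 2 L) {r : ℕ} {θ : ℕ → Module.End K V}
    (hθ : ∀ c, r ≤ c → c ≤ n → ∀ a ∈ gr (n - c), θ c ((L ^ c) a) = a) {t : ℕ} (ht : r ≤ t)
    (htn : t ≤ n) (g : ℕ → ℚ) {i₀ : ℕ} (hi₀ : i₀ ≤ n) {p : V} (hp : p ∈ gr i₀)
    (hpr : (L ^ (n - i₀ + 1)) p = 0) {j : ℕ} (hj : i₀ + 2 * j = n - t) :
    dg n L θ t g ((L ^ j) p) = ((g j : ℚ) : K) • (L ^ j) p := by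
  rw [dg, LinearMap.sum_apply]
  have h1 : ∀ i ∈ range ((n - t) / 2 + 1),
      (((g i - (if i = 0 then 0 else g (i - 1)) : ℚ) : K) •
        (L ^ i * θ (t + 2 * i) * L ^ (t + i))) ((L ^ j) p) =
      if i < j + 1 then ((g i - (if i = 0 then 0 else g (i - 1)) : ℚ) : K) • (L ^ j) p else 0 := by
    intro i hi
    rw [Finset.mem_range] at hi
    rw [LinearMap.smul_apply, Module.End.mul_apply, Module.End.mul_apply,
      ← Module.End.mul_apply (L ^ (t + i)), ← pow_add]
    by_cases hij : i < j + 1
    · rw [if_pos hij]
      have e1 : t + i + j = (t + 2 * i) + (j - i) := by omega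
      have hm := pow_L_mem hLh hp (j - i)
      rw [show i₀ + 2 * (j - i) = n - (t + 2 * i) by omega] at hm
      rw [e1, pow_add _ (t + 2 * i), Module.End.mul_apply,
        hθ (t + 2 * i) (by omega) (by omega) _ hm,
        ← Module.End.mul_apply (L ^ i), ← pow_add, show i + (j - i) = j by omega]
    · rw [if_neg hij, L_pow_gt hpr (by omega), map_zero, map_zero, smul_zero]
  rw [Finset.sum_congr rfl h1, ← Finset.sum_filter]
  have h2 : (range ((n - t) / 2 + 1)).filter (fun i => i < j + 1) = range (j + 1) := by
    ext i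
    simp only [Finset.mem_filter, Finset.mem_range]
    omega
  rw [h2, ← Finset.sum_smul, ← Rat.cast_sum, sum_tele]

/-- **From the inverses of `L ^ m`, `m ≥ r`, to `f ^ r`.** -/
theorem fpow_of_theta (hR : OpAlg gr R) (h : DirectSum.IsInternal gr)
    (hbd : ∀ i, 2 * n + 1 ≤ i → gr i = ⊥)
    (hL : R 1 L) (hHL : HardLef gr n L) (hf : Lowers gr n L f) (hfh : IsHom gr (-2) f) {r : ℕ}
    (hθ : ∀ c, r ≤ c → c ≤ n → ∃ θ, R (-(c : ℤ)) θ ∧ ∀ a ∈ gr (n - c), θ ((L ^ c) a) = a) :
    R (-(r : ℤ)) (f ^ r) := by
  have hLh : IsHom gr 2 L := by simpa using hR.hom hL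
  choose! θ hθR hθ using hθ
  have hproj := proj_mem_trunc hR h hbd hL hHL θ hθR hθ
  have hp1 : ∀ c, r ≤ c → c ≤ n → R 0 (proj h (n - c)) := fun c hc hcn =>
    (hproj (n - c) (by omega) c (by omega)).1
  have hp2 : ∀ c, r ≤ c → c ≤ n → R 0 (proj h (n + c)) := fun c hc hcn =>
    (hproj (n - c) (by omega) c (by omega)).2
  set γ : ℕ → ℕ → ℚ := fun t i => fc (t + 2 * i) (t + i) r with hγ
  set γ' : ℕ → ℕ → ℚ := fun t i => fc (t + 2 * i) (i + r) r with hγ'
  set A : ℕ → Module.End K V := fun t => L ^ (t - r) * (dg n L θ t (γ t) * θ t) * proj h (n + t)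
    with hA
  set B : ℕ → Module.End K V := fun t => proj h (n - t) * (dg n L θ t (γ' t) * θ t * L ^ (t - r))
    with hB
  have hBin : ∀ t, r ≤ t → t ≤ n → R (-(r : ℤ)) (dg n L θ t (γ' t) * θ t * L ^ (t - r)) := by
    intro t ht htn
    refine hR.cast (hR.mul (hR.mul (dg_mem hR hL hθR ht htn _) (hθR t ht htn))
      (hR.pow hL (t - r))) ?_
    have : ((t - r : ℕ) : ℤ) = (t : ℤ) - r := by rw [Nat.cast_sub ht]
    rw [this]; ring
  have hAR : ∀ t, r ≤ t → t ≤ n → R (-(r : ℤ)) (A t) := by
    intro t ht htn
    refine hR.cast (hR.mul (hR.mul (hR.pow hL (t - r)) (hR.mul (dg_mem hR hL hθR ht htn _)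
      (hθR t ht htn))) (hp2 t ht htn)) ?_
    have : ((t - r : ℕ) : ℤ) = (t : ℤ) - r := by rw [Nat.cast_sub ht]
    rw [this]; ring
  have hBR : ∀ t, r ≤ t → t ≤ n → R (-(r : ℤ)) (B t) := by
    intro t ht htn
    exact hR.cast (hR.mul (hp1 t ht htn) (hBin t ht htn)) (by ring)
  have key : f ^ r = ∑ t ∈ Finset.Icc r n, A t + ∑ t ∈ Finset.Icc (r + 1) n, B t := by
    apply LinearMap.ext
    intro x
    refine lef_induction' h hLh hbd hHL
      (p := fun x => (f ^ r) x = (∑ t ∈ Finset.Icc r n, A t + ∑ t ∈ Finset.Icc (r + 1) n, B t) x)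
      ?_ ?_ x
    · intro a b ha hb; rw [map_add, map_add, ha, hb]
    · intro i₀ hi₀ p hp hpr j
      by_cases hj : n - i₀ < j
      · rw [L_pow_gt hpr hj, map_zero, map_zero]
      rw [not_lt] at hj
      have hd := pow_L_mem hLh hp j
      rw [LinearMap.add_apply, LinearMap.sum_apply, LinearMap.sum_apply]
      -- the terms of the second sum
      have hB0 : ∀ t, r ≤ t → t ≤ n → ((i₀ + 2 * j : ℕ) : ℤ) + 2 * -(r : ℤ) ≠ ((n - t : ℕ) : ℤ) →
          B t ((L ^ j) p) = 0 := by
        intro t ht htn hne
        have h1 := hR.hom (hBin t ht htn) (i₀ + 2 * j : ℕ) _ (by rw [grZ_natCast]; exact hd)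
        rw [hB]
        beta_reduce
        rw [Module.End.mul_apply]
        by_cases h2 : 0 ≤ ((i₀ + 2 * j : ℕ) : ℤ) + 2 * -(r : ℤ)
        · obtain ⟨l, hl⟩ := Int.eq_ofNat_of_zero_le h2
          rw [hl] at h1 hne
          have h1' : (dg n L θ t (γ' t) * θ t * L ^ (t - r)) ((L ^ j) p) ∈ gr l := by
            rwa [grZ_natCast] at h1
          exact proj_ne h h1' (by intro h3; apply hne; rw [h3])
        · rw [grZ_of_neg (by omega)] at h1
          rw [(Submodule.mem_bot _).1 h1, map_zero]
      by_cases hcase : n + r ≤ i₀ + 2 * j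
      · -- first case
        obtain ⟨t₀, ht₀⟩ : ∃ t₀, i₀ + 2 * j = n + t₀ := ⟨i₀ + 2 * j - n, by omega⟩
        obtain ⟨i, hi⟩ : ∃ i, j = t₀ + i := ⟨j - t₀, by omega⟩
        rw [Finset.sum_eq_single t₀, Finset.sum_eq_zero, add_zero]
        · rw [hA]
          beta_reduce
          rw [ht₀] at hd
          rw [Module.End.mul_apply, Module.End.mul_apply, Module.End.mul_apply, proj_same h hd]
          have hm := pow_L_mem hLh hp i
          rw [show i₀ + 2 * i = n - t₀ by omega] at hm
          have e1 : θ t₀ ((L ^ j) p) = (L ^ i) p := by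
            rw [hi, pow_add, Module.End.mul_apply]
            exact hθ t₀ (by omega) (by omega) _ hm
          have e : fc (n - i₀) j r = γ t₀ i := by
            rw [hγ]
            beta_reduce
            rw [show n - i₀ = t₀ + 2 * i by omega, hi]
          rw [e1, dg_apply hLh hθ (by omega) (by omega) (γ t₀) hi₀ hp hpr (by omega), map_smul,
            ← Module.End.mul_apply (L ^ (t₀ - r)), ← pow_add,
            f_pow_apply hf hi₀ hp hpr hj r (by omega),
            show t₀ - r + i = j - r by omega, e]
        · intro t ht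
          rw [Finset.mem_Icc] at ht
          apply hB0 t (by omega) ht.2
          omega
        · intro t ht htne
          rw [hA]
          beta_reduce
          rw [Module.End.mul_apply, proj_ne h hd (by omega), map_zero]
        · intro h'
          exact absurd (Finset.mem_Icc.2 ⟨by omega, by omega⟩) h'
      · -- second case
        rw [not_le] at hcase
        rw [Finset.sum_eq_zero, zero_add]
        · by_cases h2r : i₀ + 2 * j < 2 * r
          · have h1 : (f ^ r) ((L ^ j) p) = 0 := by
              have h2 := (hfh.pow r) (i₀ + 2 * j : ℕ) _ (by rw [grZ_natCast]; exact hd)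
              rw [grZ_of_neg (by push_cast; omega)] at h2
              exact (Submodule.mem_bot _).1 h2
            rw [h1, Finset.sum_eq_zero]
            intro t ht
            rw [Finset.mem_Icc] at ht
            apply hB0 t (by omega) ht.2
            omega
          · rw [not_lt] at h2r
            obtain ⟨t₀, ht₀⟩ : ∃ t₀, t₀ + (i₀ + 2 * j) = n + 2 * r := ⟨n + 2 * r - (i₀ + 2 * j), by omega⟩
            rw [Finset.sum_eq_single t₀]
            · rw [hB]
              beta_reduce
              rw [Module.End.mul_apply]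
              have h1 := hR.hom (hBin t₀ (by omega) (by omega)) (i₀ + 2 * j : ℕ) _
                (by rw [grZ_natCast]; exact hd)
              rw [show ((i₀ + 2 * j : ℕ) : ℤ) + 2 * -(r : ℤ) = ((n - t₀ : ℕ) : ℤ) by omega,
                grZ_natCast] at h1
              rw [proj_same h h1, Module.End.mul_apply, Module.End.mul_apply,
                ← Module.End.mul_apply (L ^ (t₀ - r)), ← pow_add]
              by_cases hjr : r ≤ j
              · obtain ⟨i, hi⟩ : ∃ i, j = i + r := ⟨j - r, by omega⟩
                have hm := pow_L_mem hLh hp i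
                rw [show i₀ + 2 * i = n - t₀ by omega] at hm
                have e1 : θ t₀ ((L ^ (t₀ - r + j)) p) = (L ^ i) p := by
                  rw [show t₀ - r + j = t₀ + i by omega, pow_add, Module.End.mul_apply]
                  exact hθ t₀ (by omega) (by omega) _ hm
                have e : fc (n - i₀) j r = γ' t₀ i := by
                  rw [hγ']
                  beta_reduce
                  rw [show n - i₀ = t₀ + 2 * i by omega, hi]
                rw [e1, dg_apply hLh hθ (by omega) (by omega) (γ' t₀) hi₀ hp hpr (by omega),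
                  f_pow_apply hf hi₀ hp hpr hj r hjr, show j - r = i by omega, e]
              · rw [f_pow_gt hf hi₀ hp hpr hj (by omega), L_pow_gt hpr (by omega), map_zero,
                  map_zero]
            · intro t ht htne
              rw [Finset.mem_Icc] at ht
              apply hB0 t (by omega) ht.2
              omega
            · intro h'
              exact absurd (Finset.mem_Icc.2 ⟨by omega, by omega⟩) h'
        · intro t ht
          rw [Finset.mem_Icc] at ht
          rw [hA]
          beta_reduce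
          rw [Module.End.mul_apply, proj_ne h hd (by omega), map_zero]
  rw [key]
  apply hR.add
  · apply hR.sum
    intro t ht
    rw [Finset.mem_Icc] at ht
    exact hAR t ht.1 ht.2
  · apply hR.sum
    intro t ht
    rw [Finset.mem_Icc] at ht
    exact hBR t (by omega) ht.2

end Pool.Agent.Helper9K9.LF
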