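import Pool.Agent.Helper9K9.LF.Desc

/-!
# The inverses of the powers of `L` in the outer degrees
-/

set_option autoImplicit false

open Finset Polynomial

namespace Pool.Agent.Helper9K9.LF

open Pool.Agent.H914

variable {K : Type*} [Field K] [CharZero K] {V : Type*} [AddCommGroup V] [Module K V]
  {gr : ℕ → Submodule K V} {n : ℕ} {L f : Module.End K V} {R : ℤ → Module.End K V → Prop}

/-- the powers of the commutator with `L` preserve the algebra -/
lemma adO_mem (hR : OpAlg gr R) (hL : R 1 L) {d : ℤ} {y : Module.End K V} (hy : R d y) (m : ℕ) :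
    R (d + m) ((adO L ^ m) y) := by
  induction m with
  | zero => simpa using hy
  | succ m ih =>
    rw [pow_succ', Module.End.mul_apply, adO_apply]
    apply hR.sub
    · exact hR.cast (hR.mul hL ih) (by push_cast; ring)
    · exact hR.cast (hR.mul ih hL) (by push_cast; ring)

lemma fact_ne (r : ℕ) : ((-1 : K) ^ r * (2 * r).factorial) ≠ 0 :=
  mul_ne_zero (pow_ne_zero _ (by norm_num)) (Nat.cast_ne_zero.2 (Nat.factorial_ne_zero _))

/-- an operator `v` with `(ad L) ^ (2r) v = L ^ r` is a multiple of `f ^ r` -/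
lemma eq_of_adO [Module.Finite K V] (h : DirectSum.IsInternal gr)
    (t : Sl2 (wt h n) L f) (hfh : IsHom gr (-2) f) {r : ℕ} {v : Module.End K V}
    (hv : IsHom gr (2 * -(r : ℤ)) v) (hvL : (adO L ^ (2 * r)) v = L ^ r) :
    f ^ r = ((-1 : K) ^ r * (2 * r).factorial) • v := by
  have h1 : IsHom gr (2 * -(r : ℤ)) (f ^ r) := by
    have := hfh.pow r
    rwa [show (r : ℤ) * -2 = 2 * -(r : ℤ) by ring] at this
  rw [← sub_eq_zero]
  apply adO_inj h t (r := r) (h1.sub (hv.smul _))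
  rw [map_sub, map_smul, hvL, (adO_pow_f t r).1, sub_self]

/-- the four descriptions -/
theorem range_tfae [Module.Finite K V] (hR : OpAlg gr R) (h : DirectSum.IsInternal gr)
    (hbd : ∀ i, 2 * n + 1 ≤ i → gr i = ⊥)
    (hstr : ∀ y, R 0 y → ∃ q : ℚ, LinearMap.trace K V (par h * y) = q)
    (hL : R 1 L) (hHL : HardLef gr n L) {r : ℕ} (hr : 1 ≤ r) :
    List.TFAE [
      ∀ c, r ≤ c → c ≤ n → ∃ θ, R (-(c : ℤ)) θ ∧ ∀ a ∈ gr (n - c), θ ((L ^ c) a) = a,
      ∀ c, r ≤ c → c ≤ n → ∃ ν ∈ KS R (-(c : ℤ)), ∀ a ∈ gr (n + c), ν a = 0 → a = 0,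
      ∃ v, R (-(r : ℤ)) v ∧ (adO L ^ (2 * r)) v = L ^ r,
      ∃ v ∈ KS R (-(r : ℤ)), (adO L ^ (2 * r)) v = L ^ r] := by
  have hLh : IsHom gr 2 L := by simpa using hR.hom hL
  obtain ⟨f, t, hfh, hf⟩ := exists_sl2 h hLh hbd hHL
  tfae_have 1 → 3 := by
    intro h1
    have h2 := fpow_of_theta hR h hbd hL hHL hf hfh (r := r) h1
    refine ⟨_, hR.smul (((-1 : ℚ) ^ r * (2 * r).factorial)⁻¹) h2, ?_⟩
    rw [map_smul, (adO_pow_f t r).1, smul_smul]
    push_cast
    rw [inv_mul_cancel₀ (fact_ne r), one_smul]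
  tfae_have 3 → 4 := by
    rintro ⟨v, hv, hv'⟩
    exact ⟨v, Submodule.subset_span hv, hv'⟩
  tfae_have 4 → 2 := by
    rintro ⟨v, hv, hv'⟩ c hrc hcn
    have h1 : f ^ r ∈ KS R (-(r : ℤ)) := by
      rw [eq_of_adO h t hfh (hR.kspan.hom hv) hv']
      exact Submodule.smul_mem _ _ hv
    obtain ⟨θ, hθ, hθ'⟩ := theta_of_fpow hR.kspan hbd (Submodule.subset_span hL) hHL hf hr h1 hrc hcn
    refine ⟨θ, hθ, ?_⟩
    intro a ha h0
    obtain ⟨b, hb, hb'⟩ := (hHL (n - c) (by omega)).2 a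
      (by rw [show 2 * n - (n - c) = n + c by omega]; exact ha)
    rw [show n - (n - c) = c by omega] at hb'
    rw [← hb', hθ' b hb] at h0
    rw [← hb', h0, map_zero]
  tfae_have 2 → 1 := fun h2 => descent_trunc hR h hbd hstr hL hHL h2
  tfae_finish

/-- **The rank criterion.** -/
theorem of_finrank_le [Module.Finite K V] (hR : OpAlg gr R) (h : DirectSum.IsInternal gr)
    (hbd : ∀ i, 2 * n + 1 ≤ i → gr i = ⊥) (hL : R 1 L) (hHL : HardLef gr n L) {r : ℕ}
    (hdim : Module.finrank K (KS R r) ≤ Module.finrank K (KS R (-(r : ℤ)))) :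
    ∃ v ∈ KS R (-(r : ℤ)), (adO L ^ (2 * r)) v = L ^ r := by
  have hLh : IsHom gr 2 L := by simpa using hR.hom hL
  obtain ⟨f, t, hfh, hf⟩ := exists_sl2 h hLh hbd hHL
  have hmap : ∀ v ∈ KS R (-(r : ℤ)), (adO L ^ (2 * r)) v ∈ KS R r := by
    intro v hv
    exact hR.kspan.cast (adO_mem hR.kspan (Submodule.subset_span hL) hv (2 * r))
      (by push_cast; ring)
  set φ : KS R (-(r : ℤ)) →ₗ[K] KS R r := (adO L ^ (2 * r)).restrict hmap with hφ
  have hinj : Function.Injective φ := by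
    rw [← LinearMap.ker_eq_bot, LinearMap.ker_eq_bot']
    rintro ⟨v, hv⟩ h0
    have h1 : (adO L ^ (2 * r)) v = 0 := congrArg Subtype.val h0
    exact Subtype.ext (adO_inj h t (hR.kspan.hom hv) h1)
  have heq : Module.finrank K (KS R (-(r : ℤ))) = Module.finrank K (KS R r) :=
    le_antisymm (LinearMap.finrank_le_finrank_of_injective hinj) hdim
  have hLr : L ^ r ∈ KS R r := Submodule.subset_span (hR.cast (hR.pow hL r) (by ring))
  obtain ⟨v, hv⟩ := (LinearMap.injective_iff_surjective_of_finrank_eq_finrank heq).1 hinj ⟨L ^ r, hLr⟩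
  exact ⟨v, v.2, congrArg Subtype.val hv⟩

/-- the converse for `r = 1` -/
theorem finrank_le_of_one [Module.Finite K V] (hR : OpAlg gr R) (h : DirectSum.IsInternal gr)
    (hbd : ∀ i, 2 * n + 1 ≤ i → gr i = ⊥) (hL : R 1 L) (hHL : HardLef gr n L)
    (hv : ∃ v ∈ KS R (-1), (adO L ^ 2) v = L) :
    Module.finrank K (KS R 1) ≤ Module.finrank K (KS R (-1)) := by
  have hLh : IsHom gr 2 L := by simpa using hR.hom hL
  obtain ⟨f, t, hfh, hf⟩ := exists_sl2 h hLh hbd hHL
  obtain ⟨v, hv, hv'⟩ := hv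
  have hfK : f ∈ KS R (-1) := by
    have h1 := eq_of_adO h t hfh (r := 1) (v := v) (by simpa using hR.kspan.hom hv)
      (by simpa using hv')
    rw [pow_one] at h1
    rw [h1]
    exact Submodule.smul_mem _ _ hv
  have hmap : ∀ y ∈ KS R 1, (adO f ^ (2 * 1)) y ∈ KS R (-1) := by
    intro y hy
    rw [mul_one, pow_two, Module.End.mul_apply, adO_apply, adO_apply]
    have h1 : f * y - y * f ∈ KS R 0 :=
      hR.kspan.sub (hR.kspan.cast (hR.kspan.mul hfK hy) (by ring))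
        (hR.kspan.cast (hR.kspan.mul hy hfK) (by ring))
    exact hR.kspan.sub (hR.kspan.cast (hR.kspan.mul hfK h1) (by ring))
      (hR.kspan.cast (hR.kspan.mul h1 hfK) (by ring))
  set φ : KS R 1 →ₗ[K] KS R (-1) := (adO f ^ (2 * 1)).restrict hmap with hφ
  have hinj : Function.Injective φ := by
    rw [← LinearMap.ker_eq_bot, LinearMap.ker_eq_bot']
    rintro ⟨y, hy⟩ h0
    have h1 : (adO f ^ (2 * 1)) y = 0 := congrArg Subtype.val h0
    exact Subtype.ext (adO_inj' h t (by simpa using hR.kspan.hom hy) h1)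
  exact LinearMap.finrank_le_finrank_of_injective hinj

end Pool.Agent.Helper9K9.LF
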