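import Pool.Agent.Helper9K9.LF.Defs
import Pool.Agent.Helper9K9.LF.Range
import Pool.Agent.H447R3.AoC
import Pool.Agent.H447R3.DegB

/-!
# The Lefschetz standard conjecture in the degrees up to `i`
-/

set_option autoImplicit false

open CategoryTheory AlgebraicGeometry Finset

universe u v

namespace Pool.Agent.Helper9K9.LF

open Pool.Agent.H914 Pool.Agent.H447 Pool.Agent.W537 VarClass Obj WeilCohomology

variable {k : Type u} [Field k] {𝒱 : VarClass k} {ops : CycleOps 𝒱}
  {W : WeilCohomology.{u, v} ops} {X Y : 𝒱.Obj}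

lemma lefPow_eq (D : X.Cycles) (m : ℕ) :
    lefPow W X D m = LinearMap.mulLeft W.K (W.cl X D) ^ m := by
  rw [lefPow, LinearMap.pow_mulLeft]

lemma lefschetzUpTo_iff {D : X.Cycles} (hHL : HardLefschetz W X D) {i : ℕ} (hi : i < X.dim) :
    LefschetzUpTo W X D i ↔ ∀ c, X.dim - i ≤ c → c ≤ X.dim → ∃ θ, ROp W X (-(c : ℤ)) θ ∧
      ∀ a ∈ W.gr X (X.dim - c), θ ((LinearMap.mulLeft W.K (W.cl X D) ^ c) a) = a := by
  constructor
  · intro h c hc hcn
    obtain ⟨z, hz, h1, -⟩ := h (X.dim - c) (by omega)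
    refine ⟨W.corr (W.cl _ z), rop_corr (p := X.dim - c) (by omega) hz, ?_⟩
    intro a ha
    have h2 := h1 a ha
    rw [lefPow_eq, show X.dim - (X.dim - c) = c by omega] at h2
    exact h2
  · intro h j hj
    obtain ⟨θ, hθ, hθ'⟩ := h (X.dim - j) (by omega) (by omega)
    obtain ⟨z, hz, rfl⟩ := exists_of_rop (p := j) (by omega) hθ
    rw [show X.dim - (X.dim - j) = j by omega] at hθ'
    refine ⟨z, hz, ?_, ?_⟩
    · intro a ha
      rw [lefPow_eq]
      exact hθ' a ha
    · intro b hb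
      obtain ⟨a, ha, rfl⟩ := (hHL j (by omega)).2 b hb
      rw [lefPow_eq]
      change (LinearMap.mulLeft W.K (W.cl X D) ^ (X.dim - j)) (W.corr _ _) = _
      rw [hθ' a ha]

lemma injectiveUpTo_iff {i : ℕ} (hi : i < X.dim) :
    InjectiveUpTo W X i ↔ ∀ j ≤ i, SpanInjective W X (X.dim - j) := by
  have h : ∀ j ≤ i, (SomeIn (spanCycles W (X.prod X) j)
      (fun γ => InjectiveOn (W.gr X (2 * X.dim - j)) (W.corr γ)) ↔
        SpanInjective W X (X.dim - j)) := by
    intro j hj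
    have e1 : ((X.dim : ℤ) - (X.dim - j : ℕ)) = j := by omega
    have e2 : X.dim + (X.dim - j) = 2 * X.dim - j := by omega
    rw [SpanInjective, e1, e2]
    rfl
  exact ⟨fun H j hj => (h j hj).1 (H j hj), fun H j hj => (h j hj).2 (H j hj)⟩

lemma spanInjective_iff {i : ℕ} (hi : i < X.dim) :
    (∀ j ≤ i, SpanInjective W X (X.dim - j)) ↔ ∀ c, X.dim - i ≤ c → c ≤ X.dim →
      ∃ ν ∈ KS (ROp W X) (-(c : ℤ)), ∀ a ∈ W.gr X (X.dim + c), ν a = 0 → a = 0 := by
  constructor
  · intro h c hc hcn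
    obtain ⟨γ, hγ, h1⟩ := h (X.dim - c) (by omega)
    rw [show X.dim - (X.dim - c) = c by omega] at hγ h1
    exact ⟨W.corr γ, mem_KS_iff.2 (mem_KOp_iff.2 ⟨γ, by rwa [← sub_eq_add_neg], rfl⟩), h1⟩
  · intro h j hj
    obtain ⟨ν, hν, h1⟩ := h (X.dim - j) (by omega) (by omega)
    obtain ⟨γ, hγ, rfl⟩ := mem_KOp_iff.1 (mem_KS_iff.1 hν)
    exact ⟨γ, by rwa [← sub_eq_add_neg] at hγ, h1⟩

/-- the powers of `D × X - X × D` -/
lemma corr_boxDiff_pow {D : X.Cycles} (hD : X.IsCyc 1 D) (m : ℕ) (c : W.H (X.prod X)) :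
    W.corr (W.cl _ (boxDiff ops D) ^ m * c) =
      (-1 : W.K) ^ m • (adO (LinearMap.mulLeft W.K (W.cl X D)) ^ m) (W.corr c) := by
  induction m with
  | zero => simp
  | succ m ih =>
    rw [pow_succ', mul_assoc, corr_boxDiff hD, ih, pow_succ' (adO _) m, Module.End.mul_apply,
      adO_apply, pow_succ (-1 : W.K) m, mul_smul, neg_one_smul, neg_sub, smul_mul_assoc,
      mul_smul_comm, smul_sub]

lemma corr_boxDiff_even {D : X.Cycles} (hD : X.IsCyc 1 D) (r : ℕ) (c : W.H (X.prod X)) :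
    W.corr (W.cl _ (boxDiff ops D) ^ (2 * r) * c) =
      (adO (LinearMap.mulLeft W.K (W.cl X D)) ^ (2 * r)) (W.corr c) := by
  rw [corr_boxDiff_pow hD, pow_mul (-1 : W.K)]
  simp

lemma corr_diagPow (D : X.Cycles) (i : ℕ) :
    W.corr (diagPow W X D i) = LinearMap.mulLeft W.K (W.cl X D) ^ (X.dim - i) := by
  apply LinearMap.ext
  intro a
  rw [diagPow, cls, W.cl_push, corr_diag, cl_divPow, W.cl_fund, LinearMap.pow_mulLeft,
    LinearMap.mulLeft_apply, LinearMap.mulLeft_apply, mul_one]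

lemma mul_iff {D : X.Cycles} (hD : X.IsCyc 1 D) {i : ℕ} (γ : W.H (X.prod X)) :
    W.cl _ (boxDiff ops D) ^ (2 * (X.dim - i)) * γ = diagPow W X D i ↔
      (adO (LinearMap.mulLeft W.K (W.cl X D)) ^ (2 * (X.dim - i))) (W.corr γ) =
        LinearMap.mulLeft W.K (W.cl X D) ^ (X.dim - i) := by
  constructor
  · intro h
    rw [← corr_boxDiff_even hD, h, corr_diagPow]
  · intro h
    rw [← sub_eq_zero]
    apply corr_inj
    rw [corr_sub', corr_boxDiff_even hD, h, corr_diagPow, sub_self]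

lemma cl_divPow' (E : Y.Cycles) (m : ℕ) (z : Y.Cycles) :
    W.cl Y (divPow ops E m z) = W.cl Y E ^ m * W.cl Y z := by
  rw [cl_divPow, LinearMap.pow_mulLeft, LinearMap.mulLeft_apply]

lemma divisible_iff {D : X.Cycles} (hD : X.IsCyc 1 D) {i : ℕ} (hi : i < X.dim) :
    DiagPowDivisible W X D i ↔ ∃ v, ROp W X (-((X.dim - i : ℕ) : ℤ)) v ∧
      (adO (LinearMap.mulLeft W.K (W.cl X D)) ^ (2 * (X.dim - i))) v =
        LinearMap.mulLeft W.K (W.cl X D) ^ (X.dim - i) := by
  constructor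
  · rintro ⟨z, hz, h⟩
    rw [cls, cl_divPow', mul_iff hD] at h
    exact ⟨_, rop_corr (p := i) (by omega) hz, h⟩
  · rintro ⟨v, hv, h⟩
    obtain ⟨z, hz, rfl⟩ := exists_of_rop (p := i) (by omega) hv
    refine ⟨z, hz, ?_⟩
    rw [cls, cl_divPow', mul_iff hD]
    exact h

lemma mem_span_iff {p : ℕ} {d : ℤ} (hd : (p : ℤ) = X.dim + d) {y : Module.End W.K (W.H X)} :
    y ∈ KS (ROp W X) d ↔ ∃ γ ∈ spanCycles W (X.prod X) (p : ℤ), W.corr γ = y := by
  rw [mem_KS_iff, mem_KOp_iff, hd]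

lemma divisibleSpan_iff {D : X.Cycles} (hD : X.IsCyc 1 D) {i : ℕ} (hi : i < X.dim) :
    DiagPowDivisibleSpan W X D i ↔ ∃ v ∈ KS (ROp W X) (-((X.dim - i : ℕ) : ℤ)),
      (adO (LinearMap.mulLeft W.K (W.cl X D)) ^ (2 * (X.dim - i))) v =
        LinearMap.mulLeft W.K (W.cl X D) ^ (X.dim - i) := by
  constructor
  · rintro ⟨γ, hγ, h⟩
    beta_reduce at h
    rw [cls, mul_iff hD] at h
    exact ⟨_, (mem_span_iff (p := i) (by omega)).2 ⟨γ, hγ, rfl⟩, h⟩
  · rintro ⟨v, hv, h⟩
    obtain ⟨γ, hγ, rfl⟩ := (mem_span_iff (p := i) (by omega)).1 hv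
    exact ⟨γ, hγ, (mul_iff hD γ).2 h⟩

/-- the action of the classes on the cohomology as a linear map -/
noncomputable def corrL (W : WeilCohomology.{u, v} ops) (X : 𝒱.Obj) :
    W.H (X.prod X) →ₗ[W.K] Module.End W.K (W.H X) where
  toFun c := W.corr c
  map_add' := corr_add W
  map_smul' := corr_smul W

lemma corrL_inj : Function.Injective (corrL W X) := by
  rw [← LinearMap.ker_eq_bot, LinearMap.ker_eq_bot']
  intro c hc
  exact corr_inj hc

lemma finrank_KS {p : ℕ} {d : ℤ} (hd : (p : ℤ) = X.dim + d) :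
    Module.finrank W.K (KS (ROp W X) d) = cycleRank W (X.prod X) p := by
  have h1 : KS (ROp W X) d = (spanCycles W (X.prod X) (p : ℤ)).map (corrL W X) := by
    ext y
    rw [mem_span_iff hd, Submodule.mem_map]
    rfl
  rw [h1, cycleRank, dimOf]
  exact ((spanCycles W (X.prod X) (p : ℤ)).equivMapOfInjective _ corrL_inj).finrank_eq.symm

/-- **The four descriptions of the Lefschetz standard conjecture in the degrees up to `i`.** -/
theorem upTo_tfae {D : X.Cycles} (hD : X.IsCyc 1 D) (hHL : HardLefschetz W X D) {i : ℕ}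
    (hi : i < X.dim) :
    List.TFAE [LefschetzUpTo W X D i, InjectiveUpTo W X i,
      DiagPowDivisible W X D i, DiagPowDivisibleSpan W X D i] := by
  rw [lefschetzUpTo_iff hHL hi, injectiveUpTo_iff hi, spanInjective_iff hi, divisible_iff hD hi, divisibleSpan_iff hD hi]
  exact range_tfae rop_opAlg (W.isInternal X) W_hbd rop_str (rop_mulLeft hD) hHL
    (r := X.dim - i) (by omega)

/-- **The rank criterion.** -/
theorem upTo_of_rank {D : X.Cycles} (hD : X.IsCyc 1 D) (hHL : HardLefschetz W X D) {i : ℕ}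
    (hi : i < X.dim)
    (hrk : cycleRank W (X.prod X) (2 * X.dim - i) ≤ cycleRank W (X.prod X) i) :
    LefschetzUpTo W X D i := by
  have h1 : LefschetzUpTo W X D i ↔ DiagPowDivisibleSpan W X D i :=
    (upTo_tfae hD hHL hi).out 0 3
  rw [h1, divisibleSpan_iff hD hi]
  apply of_finrank_le rop_opAlg (W.isInternal X) W_hbd (rop_mulLeft hD) hHL
  rw [finrank_KS (p := 2 * X.dim - i) (by omega), finrank_KS (p := i) (by omega)]
  exact hrk

/-- hom = num in one codimension implies the rank condition -/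
theorem rank_of_homEqNumIn {q p : ℕ} (hpq : q + p = Y.dim) (h : HomEqNumIn W Y q) :
    cycleRank W Y q ≤ cycleRank W Y p := by
  set φ : spanCycles W Y (q : ℤ) →ₗ[W.K] Module.Dual W.K (spanCycles W Y (p : ℤ)) :=
    { toFun := fun a => (W.tr Y ∘ₗ LinearMap.mulRight W.K (a : W.H Y)) ∘ₗ
        (spanCycles W Y (p : ℤ)).subtype
      map_add' := by
        intro a b
        ext c
        simp [mul_add]
      map_smul' := by
        intro a b
        ext c
        simp } with hφ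
  have hinj : Function.Injective φ := by
    rw [← LinearMap.ker_eq_bot, LinearMap.ker_eq_bot']
    rintro ⟨a, ha⟩ h0
    apply Subtype.ext
    apply h.span hpq ha
    intro w hw
    exact congrArg (fun F => F ⟨W.cl Y w, mem_span_cl hw⟩) h0
  have h1 := LinearMap.finrank_le_finrank_of_injective hinj
  rwa [Subspace.dual_finrank_eq] at h1

/-- the conjecture A in one codimension implies the rank condition -/
theorem rank_of_lefschetzAIn {i : ℕ} {E : Y.Cycles} (h : LefschetzAIn W Y E i) :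
    cycleRank W Y (Y.dim - i) ≤ cycleRank W Y i := by
  have h1 : spanCycles W Y ((Y.dim - i : ℕ) : ℤ) ≤
      (spanCycles W Y (i : ℤ)).map (LinearMap.mulLeft W.K (W.cl Y E ^ (Y.dim - 2 * i))) := by
    rw [spanCycles, Submodule.span_le]
    rintro _ ⟨p, hp, z, hz, rfl⟩
    obtain rfl : p = Y.dim - i := by exact_mod_cast hp
    obtain ⟨z', hz', h2⟩ := h z hz
    refine ⟨W.cl Y z', mem_span_cl hz', ?_⟩
    rw [← h2, cl_divPow', LinearMap.mulLeft_apply]
  exact (Submodule.finrank_mono h1).trans (Submodule.finrank_map_le _ _)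

/-- the conjecture B from the degrees below the middle -/
theorem lefschetzB_of_upTo {D : X.Cycles} (hD : X.IsCyc 1 D) (hHL : HardLefschetz W X D)
    (hn : 1 ≤ X.dim) (h1 : LefschetzUpTo W X D (X.dim - 1)) : LefschetzB W X D := by
  have hi : X.dim - 1 < X.dim := by omega
  have hB' : LefschetzB W X D ↔ ∀ c ≤ X.dim, SpanInjective W X c :=
    (lefschetzB_tfae hD hHL).out 0 2
  have h2 : ∀ j ≤ X.dim - 1, SpanInjective W X (X.dim - j) :=
    (injectiveUpTo_iff hi).1 (((upTo_tfae hD hHL hi).out 0 1).1 h1)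
  apply hB'.2
  intro c hc
  by_cases h0 : c = 0
  · subst h0
    refine ⟨W.cl _ (ops.push (diag X) X.V.fundCycle), ?_, ?_⟩
    · apply Submodule.subset_span
      refine ⟨X.dim, by simp, _, ops.push_mem _ X.V.fundCycle_mem ?_, rfl⟩
      simp only [dim_prod]; omega
    · intro x _ hx
      rwa [W.cl_push, corr_diag, W.cl_fund, one_mul] at hx
  · have h3 := h2 (X.dim - c) (by omega)
    rwa [show X.dim - (X.dim - c) = c by omega] at h3

/-- the case of one degree below the middle: the conjecture B -/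
theorem lefschetzB_iff_rank {D : X.Cycles} (hD : X.IsCyc 1 D) (hHL : HardLefschetz W X D)
    (hn : 1 ≤ X.dim) :
    LefschetzB W X D ↔
      cycleRank W (X.prod X) (X.dim + 1) ≤ cycleRank W (X.prod X) (X.dim - 1) := by
  have hi : X.dim - 1 < X.dim := by omega
  have e1 : X.dim - (X.dim - 1) = 1 := by omega
  have e2 : 2 * X.dim - (X.dim - 1) = X.dim + 1 := by omega
  have hB' : LefschetzB W X D ↔ ∀ c ≤ X.dim, SpanInjective W X c :=
    (lefschetzB_tfae hD hHL).out 0 2
  constructor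
  · intro hB
    have h1 : ∀ j ≤ X.dim - 1, SpanInjective W X (X.dim - j) := by
      intro j hj
      exact hB'.1 hB _ (by omega)
    have h2 : DiagPowDivisibleSpan W X D (X.dim - 1) :=
      ((upTo_tfae hD hHL hi).out 1 3).1 ((injectiveUpTo_iff hi).2 h1)
    rw [divisibleSpan_iff hD hi, e1] at h2
    rw [← finrank_KS (p := X.dim + 1) (d := 1) (by omega),
      ← finrank_KS (p := X.dim - 1) (d := -1) (by omega)]
    apply finrank_le_of_one rop_opAlg (W.isInternal X) W_hbd (rop_mulLeft hD) hHL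
    simpa using h2
  · intro hrk
    exact lefschetzB_of_upTo hD hHL hn (upTo_of_rank hD hHL hi (by rw [e2]; exact hrk))

end Pool.Agent.Helper9K9.LF
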