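import Pool.Agent.H914R2.HLam

/-!
# The adjoint representation attached to a hard Lefschetz structure
-/

set_option autoImplicit false

open Finset

namespace Pool.Agent.Helper9K9.LF

open Pool.Agent.H914

variable {K : Type*} [Field K] [CharZero K] {V : Type*} [AddCommGroup V] [Module K V]

/-- The commutator with `e`. -/
noncomputable def adO (e : Module.End K V) : Module.End K (Module.End K V) :=
  LinearMap.mulLeft K e - LinearMap.mulRight K e

omit [CharZero K] in
lemma adO_apply (e x : Module.End K V) : adO e x = e * x - x * e := rfl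

omit [CharZero K] in
lemma adO_mul (e x y : Module.End K V) : adO e (x * y) = adO e x * y + x * adO e y := by
  simp only [adO_apply]
  noncomm_ring

omit [CharZero K] in
lemma sl2_adO {h e f : Module.End K V} (t : Sl2 h e f) : Sl2 (adO h) (adO e) (adO f) where
  ef := by
    apply LinearMap.ext
    intro x
    rw [LinearMap.sub_apply, Module.End.mul_apply, Module.End.mul_apply]
    simp only [adO_apply]
    rw [← t.ef]
    noncomm_ring
  he := by
    apply LinearMap.ext
    intro x
    rw [LinearMap.sub_apply, Module.End.mul_apply, Module.End.mul_apply, two_mul,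
      LinearMap.add_apply]
    simp only [adO_apply]
    have h1 : h * e = e * h + 2 * e := by rw [← t.he]; abel
    have h2 : h * (e * x - x * e) - (e * x - x * e) * h - (e * (h * x - x * h) - (h * x - x * h) * e)
        = (h * e) * x - e * h * x - x * (h * e) + x * (e * h) := by noncomm_ring
    rw [h2, h1]
    noncomm_ring
  hf := by
    apply LinearMap.ext
    intro x
    rw [LinearMap.sub_apply, Module.End.mul_apply, Module.End.mul_apply, LinearMap.neg_apply,
      two_mul, LinearMap.add_apply]
    simp only [adO_apply]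
    have h1 : h * f = f * h - 2 * f := by
      rw [← neg_neg (2 * f), ← t.hf]; abel
    have h2 : h * (f * x - x * f) - (f * x - x * f) * h - (f * (h * x - x * h) - (h * x - x * h) * f)
        = (h * f) * x - f * h * x - x * (h * f) + x * (f * h) := by noncomm_ring
    rw [h2, h1]
    noncomm_ring

omit [CharZero K] in
/-- The Leibniz formula when the third iterate vanishes. -/
lemma leibniz3 (e x y : Module.End K V) (hy : (adO e ^ 3) y = 0) (m : ℕ) :
    (adO e ^ (m + 2)) (x * y) = (adO e ^ (m + 2)) x * y + (m + 2) • ((adO e ^ (m + 1)) x * adO e y) +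
      (m + 2).choose 2 • ((adO e ^ m) x * (adO e ^ 2) y) := by
  have hy' : adO e ((adO e ^ 2) y) = 0 := by
    rw [← Module.End.mul_apply, ← pow_succ']
    exact hy
  have hs : ∀ (k : ℕ) (z : Module.End K V), adO e ((adO e ^ k) z) = (adO e ^ (k + 1)) z := by
    intro k z
    rw [pow_succ', Module.End.mul_apply]
  induction m with
  | zero =>
    rw [zero_add, pow_two, Module.End.mul_apply, adO_mul, map_add, adO_mul, adO_mul,
      Module.End.mul_apply, Module.End.mul_apply]
    simp only [pow_zero, Module.End.one_apply, zero_add, pow_one, Nat.choose_self, one_smul,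
      two_nsmul]
    abel
  | succ m ih =>
    rw [← hs (m + 2) (x * y), ih, map_add, map_add,
      map_nsmul, map_nsmul, adO_mul, adO_mul, adO_mul, hs, hs, hs, hy', mul_zero, add_zero]
    have h1 : adO e (adO e y) = (adO e ^ 2) y := by rw [pow_two, Module.End.mul_apply]
    have h2 : (m + 2 + 1).choose 2 = (m + 2) + (m + 2).choose 2 := by
      rw [Nat.choose_succ_succ' (m + 2) 1, Nat.choose_one_right]
    rw [h1, h2, nsmul_add, show m + 1 + 1 = m + 2 by ring,
      add_nsmul ((adO e ^ (m + 2)) x * adO e y) (m + 2) 1, one_nsmul,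
      add_nsmul ((adO e ^ (m + 1)) x * (adO e ^ 2) y) (m + 2) _]
    abel

variable {h e f : Module.End K V}

omit [CharZero K] in
lemma adO_f (t : Sl2 h e f) : adO e f = h := by
  rw [adO_apply]; exact t.ef

omit [CharZero K] in
lemma adO_f2 (t : Sl2 h e f) : (adO e ^ 2) f = -(2 * e) := by
  rw [pow_two, Module.End.mul_apply, adO_f t, adO_apply, ← t.he]
  abel

omit [CharZero K] in
lemma adO_f3 (t : Sl2 h e f) : (adO e ^ 3) f = 0 := by
  rw [pow_succ' _ 2, Module.End.mul_apply, adO_f2 t, adO_apply]
  noncomm_ring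

/-- `(ad e) ^ (2r) (f ^ r) = (-1) ^ r (2r)! e ^ r`. -/
lemma adO_pow_f (t : Sl2 h e f) (r : ℕ) :
    (adO e ^ (2 * r)) (f ^ r) = ((-1 : K) ^ r * (2 * r).factorial) • e ^ r ∧
      (adO e ^ (2 * r + 1)) (f ^ r) = 0 := by
  induction r with
  | zero => simp [adO_apply]
  | succ r ih =>
    obtain ⟨h1, h2⟩ := ih
    have h3 : ∀ k, (adO e ^ (2 * r + 1 + k)) (f ^ r) = 0 := by
      intro k
      rw [add_comm _ k, pow_add, Module.End.mul_apply, h2, map_zero]
    constructor
    · rw [show 2 * (r + 1) = 2 * r + 2 by ring, pow_succ f r, leibniz3 _ _ _ (adO_f3 t), h1, h2,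
        show 2 * r + 2 = 2 * r + 1 + 1 by ring, h3 1, adO_f2 t, zero_mul, zero_mul, nsmul_zero,
        zero_add, zero_add, ← Nat.cast_smul_eq_nsmul K, smul_mul_assoc, smul_smul]
      have e1 : e ^ r * -(2 * e) = (-2 : K) • e ^ (r + 1) := by
        rw [pow_succ, neg_smul, ofNat_smul_eq_nsmul, two_nsmul]
        noncomm_ring
      rw [e1, smul_smul]
      congr 1
      have e2 : ((2 * r + 1 + 1).choose 2 : K) * 2 = ((2 * r + 1 + 1 : ℕ) : K) * ((2 * r + 1 : ℕ) : K) := by
        have e3 : (2 * r + 1 + 1).choose 2 * 2 = (2 * r + 1 + 1) * (2 * r + 1) := by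
          rw [Nat.choose_two_right, Nat.add_sub_cancel]
          exact Nat.div_mul_cancel (Nat.even_mul_pred_self (2 * r + 1 + 1)).two_dvd
        exact_mod_cast e3
      rw [Nat.factorial_succ (2 * r + 1), Nat.factorial_succ (2 * r), pow_succ]
      push_cast at e2 ⊢
      linear_combination (-(-1 : K) ^ r * (2 * r).factorial) * e2
    · rw [show 2 * (r + 1) + 1 = (2 * r + 1) + 2 by ring, pow_succ f r, leibniz3 _ _ _ (adO_f3 t),
        h3 2, h3 1, h2]
      simp

/-- A vector of weight `-M` killed by `e ^ M` vanishes. -/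
lemma eq_zero_of_weight [Module.Finite K V] (t : Sl2 h e f) {u : V} {M : ℕ}
    (hu : h u = -(M : K) • u) (he : (e ^ M) u = 0) : u = 0 := by
  by_contra h0
  have h1 : (e ^ (M + 1)) u = 0 := by
    rw [pow_succ', Module.End.mul_apply, he, map_zero]
  have h2 := Sl2.f_eq_zero t hu h1
  exact Sl2.e_pow_ne t h2 hu h0 le_rfl he

variable {gr : ℕ → Submodule K V} {n : ℕ}

/-- `(ad L) ^ (2r)` is injective on operators of degree `-2r`. -/
lemma adO_inj [Module.Finite K V] (hi : DirectSum.IsInternal gr) {L f : Module.End K V}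
    (t : Sl2 (wt hi n) L f) {r : ℕ} {y : Module.End K V} (hy : IsHom gr (2 * -(r : ℤ)) y)
    (h0 : (adO L ^ (2 * r)) y = 0) : y = 0 := by
  apply eq_zero_of_weight (sl2_adO t) (M := 2 * r) ?_ h0
  rw [adO_apply, hy.wt_comm hi n, add_sub_cancel_left]
  push_cast
  congr 1
  ring

/-- `(ad f) ^ (2r)` is injective on operators of degree `2r`. -/
lemma adO_inj' [Module.Finite K V] (hi : DirectSum.IsInternal gr) {L f : Module.End K V}
    (t : Sl2 (wt hi n) L f) {r : ℕ} {y : Module.End K V} (hy : IsHom gr (2 * (r : ℤ)) y)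
    (h0 : (adO f ^ (2 * r)) y = 0) : y = 0 := by
  have t' := (sl2_adO t).neg_swap
  apply eq_zero_of_weight t' (M := 2 * r) ?_ ?_
  · rw [LinearMap.neg_apply, adO_apply, hy.wt_comm hi n, add_sub_cancel_left]
    push_cast
    rw [← neg_smul]
  · have e0 : ∀ F : Module.End K (Module.End K V), (-F) * (-F) = F * F := by
      intro F
      apply LinearMap.ext
      intro x
      rw [Module.End.mul_apply, Module.End.mul_apply, LinearMap.neg_apply, LinearMap.neg_apply,
        map_neg, neg_neg]
    have e1 : (-adO f : Module.End K (Module.End K V)) ^ (2 * r) = adO f ^ (2 * r) := by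
      rw [pow_mul, pow_mul, pow_two, pow_two, e0]
    exact (congrArg (fun F => F y) e1).trans h0

end Pool.Agent.Helper9K9.LF
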