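import Pool.Agent.Helper9K9.LF.Conv
import Pool.Agent.H914R2.KDesc2
import Pool.Agent.W537.OneCycleA

/-!
# Descent of the coefficients in the outer degrees
-/

set_option autoImplicit false

open Finset Polynomial

namespace Pool.Agent.Helper9K9.LF

open Pool.Agent.H914

variable {K : Type*} [Field K] [CharZero K] {V : Type*} [AddCommGroup V] [Module K V]
  {gr : ℕ → Submodule K V} {n : ℕ} {L : Module.End K V} {R : ℤ → Module.End K V → Prop}

/-- the inverse of `L ^ c` in one degree, if the inverses in the outer degrees are known -/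
lemma descent_step [Module.Finite K V] (hR : OpAlg gr R) (h : DirectSum.IsInternal gr)
    (hbd : ∀ i, 2 * n + 1 ≤ i → gr i = ⊥)
    (hstr : ∀ y, R 0 y → ∃ q : ℚ, LinearMap.trace K V (par h * y) = q)
    (hL : R 1 L) (hHL : HardLef gr n L) {c : ℕ} (hc : c ≤ n)
    (hout : ∀ l < n - c, R 0 (proj h l) ∧ R 0 (proj h (2 * n - l)))
    {θ : Module.End K V} (hθK : θ ∈ KS R (-c)) (hθ : ∀ a ∈ gr (n - c), θ ((L ^ c) a) = a) :
    ∃ θ, R (-(c : ℤ)) θ ∧ ∀ a ∈ gr (n - c), θ ((L ^ c) a) = a := by
  have hLh : IsHom gr 2 L := by simpa using hR.hom hL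
  obtain ⟨ret, hret⟩ := exists_retract K
  set m := n - c with hm
  set A : Module.End K V := 1 - ∑ l ∈ range m, proj h l with hA
  set B : Module.End K V := 1 - ∑ l ∈ range m, proj h (2 * n - l) with hB
  have hAR : R 0 A := by
    apply hR.sub hR.one
    apply hR.sum
    intro l hl
    rw [Finset.mem_range] at hl
    exact (hout l hl).1
  have hBR : R 0 B := by
    apply hR.sub hR.one
    apply hR.sum
    intro l hl
    rw [Finset.mem_range] at hl
    exact (hout l hl).2
  have hAlow : ∀ l < m, ∀ a ∈ gr l, A a = 0 := by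
    intro l hl a ha
    rw [hA, LinearMap.sub_apply, Module.End.one_apply, LinearMap.sum_apply,
      Finset.sum_eq_single l, proj_same h ha, sub_self]
    · intro l' _ hl'; exact proj_ne h ha (Ne.symm hl')
    · intro h'; exact absurd (Finset.mem_range.2 hl) h'
  have hAhigh : ∀ l, m ≤ l → ∀ a ∈ gr l, A a = a := by
    intro l hl a ha
    rw [hA, LinearMap.sub_apply, Module.End.one_apply, LinearMap.sum_apply,
      Finset.sum_eq_zero, sub_zero]
    intro l' hl'
    rw [Finset.mem_range] at hl'
    exact proj_ne h ha (by omega)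
  have hBhigh : ∀ l, 2 * n - m < l → ∀ a ∈ gr l, B a = 0 := by
    intro l hl a ha
    by_cases hl2 : 2 * n < l
    · rw [hbd l (by omega)] at ha
      rw [(Submodule.mem_bot _).1 ha, map_zero]
    · rw [hB, LinearMap.sub_apply, Module.End.one_apply, LinearMap.sum_apply,
        Finset.sum_eq_single (2 * n - l), show 2 * n - (2 * n - l) = l by omega,
        proj_same h ha, sub_self]
      · intro l' hl' hne
        rw [Finset.mem_range] at hl'
        exact proj_ne h ha (by omega)
      · intro h'; exact absurd (Finset.mem_range.2 (by omega)) h'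
  have hBlow : ∀ l ≤ 2 * n - m, ∀ a ∈ gr l, B a = a := by
    intro l hl a ha
    rw [hB, LinearMap.sub_apply, Module.End.one_apply, LinearMap.sum_apply,
      Finset.sum_eq_zero, sub_zero]
    intro l' hl'
    rw [Finset.mem_range] at hl'
    exact proj_ne h ha (by omega)
  -- an operator of degree `-c` between `A` and `B`
  have hsupp : ∀ y : Module.End K V, IsHom gr (2 * -(c : ℤ)) y → ∀ l, l ≠ n + c → ∀ a ∈ gr l,
      (A * y * B) a = 0 := by
    intro y hy l hl a ha
    rw [Module.End.mul_apply, Module.End.mul_apply]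
    by_cases h1 : 2 * n - m < l
    · rw [hBhigh l h1 a ha, map_zero, map_zero]
    · rw [hBlow l (by omega) a ha]
      have h2 := hy l a (by rw [grZ_natCast]; exact ha)
      by_cases h3 : 2 * c ≤ l
      · rw [show (l : ℤ) + 2 * -(c : ℤ) = ((l - 2 * c : ℕ) : ℤ) by omega, grZ_natCast] at h2
        exact hAlow _ (by omega) _ h2
      · rw [grZ_of_neg (by omega)] at h2
        rw [(Submodule.mem_bot _).1 h2, map_zero]
  have hθh : IsHom gr (2 * -(c : ℤ)) θ := hR.kspan.hom hθK
  have hθP : A * θ * B * L ^ c = proj h m := by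
    apply gr_ext h
    intro l a ha
    rw [Module.End.mul_apply]
    by_cases hl : l = m
    · subst hl
      have h1 := pow_L_mem hLh ha c
      rw [proj_same h ha, Module.End.mul_apply, Module.End.mul_apply,
        hBlow _ (by omega) _ h1, hθ a ha, hAhigh _ le_rfl a ha]
    · rw [proj_ne h ha hl, hsupp θ hθh (l + 2 * c) (by omega) _ (pow_L_mem hLh ha c)]
  -- the twist
  obtain ⟨z, hzR, hz⟩ := hR.exists_twist h hstr (ret := ret) hθK
  set w := A * z * B with hw
  have hwR : R (-(c : ℤ)) w := hR.cast (hR.mul (hR.mul hAR hzR) hBR) (by ring)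
  set g := w * L ^ c with hg
  have hgR : R 0 g := hR.cast (hR.mul hwR (hR.pow hL c)) (by ring)
  have hgsupp : ∀ l, l ≠ m → ∀ a ∈ gr l, g a = 0 := by
    intro l hl a ha
    rw [hg, Module.End.mul_apply]
    exact hsupp z (hR.hom hzR) (l + 2 * c) (by omega) _ (pow_L_mem hLh ha c)
  have hgm : ∀ a ∈ gr m, g a ∈ gr m := by
    intro a ha
    have := (hR.hom hgR) (m : ℕ) a (by rw [grZ_natCast]; exact ha)
    rw [mul_zero, add_zero, grZ_natCast] at this
    exact this
  have hgP : g * proj h m = g := by
    apply gr_ext h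
    intro l a ha
    rw [Module.End.mul_apply]
    by_cases hl : l = m
    · subst hl; rw [proj_same h ha]
    · rw [proj_ne h ha hl, map_zero, hgsupp l hl a ha]
  have hPg : proj h m * g = g := by
    apply gr_ext h
    intro l a ha
    rw [Module.End.mul_apply]
    by_cases hl : l = m
    · subst hl; rw [proj_same h (hgm a ha)]
    · rw [hgsupp l hl a ha, map_zero]
  have hstrg : ∀ x, R 0 x → LinearMap.trace K V (par h * (g * x)) =
      ((ret (LinearMap.trace K V (par h * (proj h m * x))) : ℚ) : K) := by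
    intro x hx
    have hLc : R c (L ^ c) := hR.cast (hR.pow hL c) (by ring)
    have e1 : ∀ y : Module.End K V, LinearMap.trace K V (par h * (A * y * B * L ^ c * x)) =
        LinearMap.trace K V (par h * (y * (B * L ^ c * x * A))) := by
      intro y
      rw [show A * y * B * L ^ c * x = A * (y * B * L ^ c * x) by simp only [mul_assoc],
        str_comm h (hR.hom hAR)]
      simp only [mul_assoc]
    rw [hg, hw, e1 z, hz _ (hR.cast (hR.mul (hR.mul (hR.mul hBR hLc) hx) hAR) (by ring)), ← e1 θ,
      hθP]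
  have hparP : ∀ y : Module.End K V, proj h m * y = y →
      LinearMap.trace K V (par h * y) = (-1 : K) ^ m * LinearMap.trace K V y := by
    intro y hy
    have h1 : par h * proj h m = (-1 : K) ^ m • proj h m := by
      apply LinearMap.ext
      intro a
      rw [Module.End.mul_apply, par, scal_apply h _ (H914.proj_mem h _ a), LinearMap.smul_apply]
    rw [← hy, ← mul_assoc, h1, smul_mul_assoc, map_smul, smul_eq_mul]
  have hPgk : ∀ k : ℕ, proj h m * g ^ (k + 1) = g ^ (k + 1) := by
    intro k
    rw [pow_succ', ← mul_assoc, hPg]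
  have hgkR : ∀ k : ℕ, R 0 (g ^ k) := fun k => hR.cast (hR.pow hgR k) (by ring)
  have hsq : ((-1 : K) ^ m) * (-1) ^ m = 1 := by
    rw [← pow_add]; exact Even.neg_one_pow ⟨m, rfl⟩
  have htr : ∀ k : ℕ, LinearMap.trace K V (g ^ (k + 1)) = Module.finrank K (gr m) := by
    intro k
    induction k with
    | zero =>
      have h1 := hstrg 1 hR.one
      have h2 : LinearMap.trace K V (proj h m) = (Module.finrank K (gr m) : K) := by
        have e0 : LinearMap.range (proj h m) = gr m := by
          ext a
          constructor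
          · rintro ⟨b, rfl⟩; exact H914.proj_mem h _ b
          · intro ha; exact ⟨a, proj_same h ha⟩
        rw [trace_idem (proj_mul_proj h m), e0]
      rw [mul_one, mul_one, hparP g hPg, hparP _ (proj_mul_proj h m), h2] at h1
      have h3 : ret ((-1 : K) ^ m * (Module.finrank K (gr m) : K)) =
          (-1 : ℚ) ^ m * (Module.finrank K (gr m) : ℚ) := by
        have := ret_ratCast hret ((-1 : ℚ) ^ m * (Module.finrank K (gr m) : ℚ))
        rw [← this]
        congr 1
        push_cast; rfl
      rw [h3] at h1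
      push_cast at h1
      rw [zero_add, pow_one]
      have h4 := congrArg (fun t => (-1 : K) ^ m * t) h1
      simp only [← mul_assoc, hsq, one_mul] at h4
      exact h4
    | succ k ih =>
      have h1 := hstrg (g ^ (k + 1)) (hgkR _)
      obtain ⟨q, hq⟩ := hstr (g ^ (k + 1)) (hgkR _)
      rw [hPgk, hq, ret_ratCast hret, ← pow_succ', hparP _ (hPgk (k + 1)), ← hq,
        hparP _ (hPgk k)] at h1
      have h4 := congrArg (fun t => (-1 : K) ^ m * t) h1
      simp only [← mul_assoc, hsq, one_mul] at h4
      rw [h4, ih]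
  have hunip := W537.unipotent_of_trace_pow h (i := m) hPg hgP htr le_rfl
  set M := Module.finrank K (gr m) with hM
  obtain ⟨q, hq⟩ := poly_inv_of_annih (E := g) (S := gr m) (h := (1 - X) ^ M)
    (by simp) (by
      intro x hx
      rw [map_pow, map_sub, map_one, ev_X]
      exact hunip x hx)
  refine ⟨ev g q * w, hR.cast (hR.mul (hR.ev hgR q) hwR) (by ring), ?_⟩
  intro a ha
  rw [Module.End.mul_apply]
  exact hq a ha

/-- **Descent in the outer degrees.** -/
theorem descent_trunc [Module.Finite K V] (hR : OpAlg gr R) (h : DirectSum.IsInternal gr)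
    (hbd : ∀ i, 2 * n + 1 ≤ i → gr i = ⊥)
    (hstr : ∀ y, R 0 y → ∃ q : ℚ, LinearMap.trace K V (par h * y) = q)
    (hL : R 1 L) (hHL : HardLef gr n L) {r : ℕ}
    (hν : ∀ c, r ≤ c → c ≤ n → ∃ ν ∈ KS R (-c), ∀ a ∈ gr (n + c), ν a = 0 → a = 0) :
    ∀ c, r ≤ c → c ≤ n → ∃ θ, R (-(c : ℤ)) θ ∧ ∀ a ∈ gr (n - c), θ ((L ^ c) a) = a := by
  have hLK : L ∈ KS R 1 := Submodule.subset_span hL
  have key : ∀ m, ∀ c, c + m = n → r ≤ c →
      ∃ θ, R (-(c : ℤ)) θ ∧ ∀ a ∈ gr (n - c), θ ((L ^ c) a) = a := by
    intro m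
    induction m using Nat.strong_induction_on with
    | _ m ih =>
      intro c hcm hrc
      have hθ' : ∀ c', c + 1 ≤ c' → c' ≤ n →
          ∃ θ, R (-(c' : ℤ)) θ ∧ ∀ a ∈ gr (n - c'), θ ((L ^ c') a) = a := by
        intro c' hc' hcn
        exact ih (n - c') (by omega) c' (by omega) (by omega)
      choose! θ hθR hθ using hθ'
      have hproj := proj_mem_trunc hR h hbd hL hHL θ hθR hθ
      obtain ⟨ν, hνK, hνi⟩ := hν c hrc (by omega)
      obtain ⟨θK, hθK, hθK'⟩ := hR.exists_theta_of_inj hLK hHL (by omega) hνK hνi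
      refine descent_step hR h hbd hstr hL hHL (by omega) ?_ hθK hθK'
      intro l hl
      have h1 := hproj l (by omega) (n - l) (by omega)
      rw [show n - (n - l) = l by omega, show n + (n - l) = 2 * n - l by omega] at h1
      exact h1
  intro c hrc hcn
  exact key (n - c) c (by omega) hrc

end Pool.Agent.Helper9K9.LF
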