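import Pool.Agent.Helper9K9.LF.Ad

/-!
# Inverses of the powers of `L` from a power of the lowering operator
-/

set_option autoImplicit false

open Finset Polynomial

namespace Pool.Agent.Helper9K9.LF

open Pool.Agent.H914

variable {K : Type*} [Field K] [CharZero K] {V : Type*} [AddCommGroup V] [Module K V]

/-- A polynomial inverse from an annihilating polynomial with nonzero constant term. -/
lemma poly_inv_of_annih {E : Module.End K V} {S : Submodule K V} {h : ℚ[X]} (hh0 : h.eval 0 ≠ 0)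
    (hhS : ∀ x ∈ S, ev E h x = 0) : ∃ q : ℚ[X], ∀ x ∈ S, ev E q (E x) = x := by
  obtain ⟨h1, hh1⟩ : X ∣ h - C (h.eval 0) := by
    rw [X_dvd_iff, coeff_zero_eq_eval_zero]; simp
  refine ⟨C (-(h.eval 0)⁻¹) * h1, ?_⟩
  intro x hx
  have e1 : ev E h = ((h.eval 0 : ℚ) : K) • 1 + ev E h1 * E := by
    have : h = C (h.eval 0) + h1 * X := by rw [mul_comm h1, ← hh1]; ring
    conv_lhs => rw [this]
    rw [map_add, map_mul, ev_C, ev_X]
  have e2 := hhS x hx
  rw [e1, LinearMap.add_apply, LinearMap.smul_apply, Module.End.one_apply,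
    Module.End.mul_apply] at e2
  rw [map_mul, ev_C, smul_mul_assoc, one_mul, LinearMap.smul_apply]
  have e3 : ev E h1 (E x) = -(((h.eval 0 : ℚ) : K) • x) := by
    rw [eq_neg_iff_add_eq_zero, add_comm]; exact e2
  rw [e3, smul_neg, smul_smul, ← neg_smul]
  have : -(((-(eval 0 h)⁻¹ : ℚ) : K) * ((eval 0 h : ℚ) : K)) = 1 := by
    rw [← Rat.cast_mul, neg_mul, inv_mul_cancel₀ hh0]
    simp
  rw [this, one_smul]

lemma ev_eigen {E : Module.End K V} {x : V} {c : ℚ} (hx : E x = (c : K) • x) (h : ℚ[X]) :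
    ev E h x = ((h.eval c : ℚ) : K) • x := by
  induction h using Polynomial.induction_on' with
  | add p q hp hq =>
    rw [map_add, LinearMap.add_apply, hp, hq, eval_add, ← add_smul]
    push_cast; rfl
  | monomial r a =>
    have hpow : ∀ r : ℕ, (E ^ r) x = ((c ^ r : ℚ) : K) • x := by
      intro r
      induction r with
      | zero => simp
      | succ r ih =>
        rw [pow_succ', Module.End.mul_apply, ih, map_smul, hx, smul_smul, pow_succ]
        push_cast; rfl
    rw [← C_mul_X_pow_eq_monomial, map_mul, map_pow, ev_C, ev_X, smul_mul_assoc, one_mul,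
      LinearMap.smul_apply, hpow, smul_smul, eval_mul, eval_C, eval_pow, eval_X]
    push_cast; rfl

/-- the coefficient of `f ^ s` on `L ^ j a`, `a` primitive of degree `n - N` -/
def fc (N j s : ℕ) : ℚ := ∏ t ∈ range s, (((j : ℚ) - t) * ((N : ℚ) - j + 1 + t))

lemma fc_ne {N j s : ℕ} (hj : j ≤ N) (hs : s ≤ j) : fc N j s ≠ 0 := by
  rw [fc, Finset.prod_ne_zero_iff]
  intro t ht
  rw [Finset.mem_range] at ht
  have h1 : ((t : ℕ) : ℚ) < j := by exact_mod_cast lt_of_lt_of_le ht hs
  have h2 : ((j : ℕ) : ℚ) ≤ N := by exact_mod_cast hj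
  have h3 : (0 : ℚ) ≤ t := Nat.cast_nonneg t
  apply mul_ne_zero
  · exact (sub_pos.mpr h1).ne'
  · have : (0 : ℚ) < (N : ℚ) - j + 1 + t := by linarith
    exact this.ne'

/-- the operator `f` lowers the powers of `L` on primitive elements -/
def Lowers (gr : ℕ → Submodule K V) (n : ℕ) (L f : Module.End K V) : Prop :=
  ∀ i ≤ n, ∀ a ∈ gr i, (L ^ (n - i + 1)) a = 0 → ∀ j ≤ n - i,
    f ((L ^ j) a) = ((j : K) * (((n - i : ℕ) : K) - j + 1)) • (L ^ (j - 1)) a

variable {gr : ℕ → Submodule K V} {n : ℕ} {L f : Module.End K V}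

lemma f_pow_apply (hf : Lowers gr n L f) {i : ℕ} (hi : i ≤ n) {a : V} (ha : a ∈ gr i)
    (hp : (L ^ (n - i + 1)) a = 0) {j : ℕ} (hj : j ≤ n - i) :
    ∀ s ≤ j, (f ^ s) ((L ^ j) a) = ((fc (n - i) j s : ℚ) : K) • (L ^ (j - s)) a := by
  intro s
  induction s with
  | zero => intro _; simp [fc]
  | succ s ih =>
    intro hs
    rw [pow_succ', Module.End.mul_apply, ih (by omega), map_smul, hf i hi a ha hp (j - s) (by omega),
      smul_smul, show j - s - 1 = j - (s + 1) by omega]
    congr 1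
    rw [fc, fc, Finset.prod_range_succ]
    have h1 : ((j - s : ℕ) : K) = (j : K) - s := by rw [Nat.cast_sub (by omega)]
    rw [h1]
    push_cast
    ring

lemma f_pow_gt (hf : Lowers gr n L f) {i : ℕ} (hi : i ≤ n) {a : V} (ha : a ∈ gr i)
    (hp : (L ^ (n - i + 1)) a = 0) {j : ℕ} (hj : j ≤ n - i) {s : ℕ} (hs : j < s) :
    (f ^ s) ((L ^ j) a) = 0 := by
  obtain ⟨c, rfl⟩ := Nat.exists_eq_add_of_lt hs
  have h0 : f a = 0 := by
    have := hf i hi a ha hp 0 (by omega)
    simpa using this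
  rw [show j + c + 1 = c + 1 + j by ring, pow_add, Module.End.mul_apply,
    f_pow_apply hf hi ha hp hj j le_rfl, Nat.sub_self, pow_zero, Module.End.one_apply, pow_succ,
    map_smul, Module.End.mul_apply, h0, map_zero, smul_zero]

/-- **From `f ^ r` to the inverses of `L ^ m`, `m ≥ r`.** -/
theorem theta_of_fpow {R : ℤ → Module.End K V → Prop} (hR : OpAlg gr R)
    (hbd : ∀ i, 2 * n + 1 ≤ i → gr i = ⊥) (hL : R 1 L) (hHL : HardLef gr n L)
    (hf : Lowers gr n L f) {r : ℕ} (hr : 1 ≤ r) (hfR : R (-(r : ℤ)) (f ^ r)) {m : ℕ} (hm : r ≤ m)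
    (hmn : m ≤ n) : ∃ θ, R (-(m : ℤ)) θ ∧ ∀ a ∈ gr (n - m), θ ((L ^ m) a) = a := by
  have hLh : IsHom gr 2 L := by simpa using hR.hom hL
  set q := m / r with hq
  set s := m % r with hs
  have hms : r * q + s = m := Nat.div_add_mod m r
  have hsr : s < r := Nat.mod_lt _ (by omega)
  set w : Module.End K V := f ^ r * L ^ (r - s) * (f ^ r) ^ q with hw
  have hwR : R (-(m : ℤ)) w := by
    refine hR.cast (hR.mul (hR.mul hfR (hR.pow hL (r - s))) (hR.pow hfR q)) ?_
    have h1 : ((r - s : ℕ) : ℤ) = (r : ℤ) - s := by rw [Nat.cast_sub hsr.le]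
    have h2 : (m : ℤ) = (r : ℤ) * q + s := by exact_mod_cast hms.symm
    rw [h1, h2]
    ring
  set T : Module.End K V := w * L ^ m with hT
  have hTR : R 0 T := hR.cast (hR.mul hwR (hR.pow hL m)) (by ring)
  set lamb : ℕ → ℚ := fun i => fc (m + 2 * i) (m + i) (r * q) * fc (m + 2 * i) (i + r) r with hlamb
  have hlamb0 : ∀ i, lamb i ≠ 0 := by
    intro i
    apply mul_ne_zero
    · exact fc_ne (by omega) (by omega)
    · exact fc_ne (by omega) (by omega)
  have hTe : ∀ i j : ℕ, i ≤ n → i + 2 * j = n - m → ∀ a ∈ gr i, (L ^ (n - i + 1)) a = 0 →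
      T ((L ^ j) a) = ((lamb j : ℚ) : K) • (L ^ j) a := by
    intro i j hi hij a ha hp
    have hN : n - i = m + 2 * j := by omega
    rw [hT, hw, Module.End.mul_apply, Module.End.mul_apply, Module.End.mul_apply,
      ← Module.End.mul_apply (L ^ m), ← pow_add, ← pow_mul,
      f_pow_apply hf hi ha hp (by omega) (r * q) (by omega), map_smul, map_smul,
      ← Module.End.mul_apply (L ^ (r - s)), ← pow_add,
      show r - s + (m + j - r * q) = j + r by omega,
      f_pow_apply hf hi ha hp (by omega) r (by omega), smul_smul,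
      show j + r - r = j by omega, hN, hlamb]
    push_cast
    rfl
  set h : ℚ[X] := ∏ i ∈ range (n + 1), (X - C (lamb i)) with hh
  have hh0 : h.eval 0 ≠ 0 := by
    rw [hh, eval_prod, Finset.prod_ne_zero_iff]
    intro i _
    rw [eval_sub, eval_X, eval_C, zero_sub]
    exact neg_ne_zero.mpr (hlamb0 i)
  have hS : ∀ x ∈ gr (n - m), ev T h x = 0 := by
    intro x hx
    have key := lef_induction hLh hbd hHL (p := fun d a => d = n - m → ev T h a = 0)
      (by intro i a b ha hb hd; rw [map_add, ha hd, hb hd, add_zero])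
      (by
        intro i hi a ha hp j hd
        rw [ev_eigen (hTe i j hi hd a ha hp), hh, eval_prod,
          Finset.prod_eq_zero (Finset.mem_range.mpr (show j < n + 1 by omega)) (by simp)]
        simp)
    have := key (n - m) (by omega) x hx 0 (by omega)
    simpa using this
  obtain ⟨Q, hQ⟩ := poly_inv_of_annih hh0 hS
  refine ⟨ev T Q * w, hR.cast (hR.mul (hR.ev hTR Q) hwR) (by ring), ?_⟩
  intro a ha
  rw [Module.End.mul_apply]
  exact hQ a ha

end Pool.Agent.Helper9K9.LF
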